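import Pool.Agent.helper7.DF.Spec3

set_option autoImplicit false

open Finset

/-! # Project DF, row LSC: the large sieve bound for the integers without a carry, with a parameter `c > 1` -/

namespace Pool.Agent.DFO

private lemma LSC_choose : ∀ (r n : ℕ), r ≤ n → (n : ℝ) ^ r ≤ (r : ℝ) ^ r * (n.choose r : ℝ) := by
  intro r
  induction r with
  | zero =>
    intro n _
    simp
  | succ r ih =>
    intro n hn
    obtain ⟨m, rfl⟩ : ∃ m, n = m + 1 := ⟨n - 1, by omega⟩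
    have hrm : r ≤ m := by omega
    have h1 := ih m hrm
    have h2 : (((m + 1).choose (r + 1) : ℕ) : ℝ) * ((r : ℝ) + 1) = ((m : ℝ) + 1) * (m.choose r : ℝ) := by
      exact_mod_cast (Nat.add_one_mul_choose_eq m r).symm
    have h3 : ((m : ℝ) + 1) ^ r ≤ ((r : ℝ) + 1) ^ r * (m.choose r : ℝ) := by
      rcases Nat.eq_zero_or_pos r with h0 | h0
      · subst h0
        simp
      · have hr : (0 : ℝ) < r := by exact_mod_cast h0
        have hrm' : (r : ℝ) ≤ m := by exact_mod_cast hrm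
        have h4 : ((r : ℝ) * ((m : ℝ) + 1)) ^ r ≤ (((r : ℝ) + 1) * m) ^ r :=
          pow_le_pow_left₀ (by positivity) (by nlinarith) r
        have h5 : (r : ℝ) ^ r * ((m : ℝ) + 1) ^ r ≤ (r : ℝ) ^ r * (((r : ℝ) + 1) ^ r * (m.choose r : ℝ)) := by
          calc (r : ℝ) ^ r * ((m : ℝ) + 1) ^ r = ((r : ℝ) * ((m : ℝ) + 1)) ^ r := (mul_pow _ _ _).symm
            _ ≤ (((r : ℝ) + 1) * m) ^ r := h4
            _ = ((r : ℝ) + 1) ^ r * (m : ℝ) ^ r := mul_pow _ _ _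
            _ ≤ ((r : ℝ) + 1) ^ r * ((r : ℝ) ^ r * (m.choose r : ℝ)) := by
                exact mul_le_mul_of_nonneg_left h1 (by positivity)
            _ = _ := by ring
        exact le_of_mul_le_mul_left h5 (pow_pos hr r)
    push_cast
    calc ((m : ℝ) + 1) ^ (r + 1) = ((m : ℝ) + 1) ^ r * ((m : ℝ) + 1) := pow_succ _ _
      _ ≤ (((r : ℝ) + 1) ^ r * (m.choose r : ℝ)) * ((m : ℝ) + 1) :=
          mul_le_mul_of_nonneg_right h3 (by positivity)
      _ = ((r : ℝ) + 1) ^ r * (((m : ℝ) + 1) * (m.choose r : ℝ)) := by ring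
      _ = ((r : ℝ) + 1) ^ r * ((((m + 1).choose (r + 1) : ℕ) : ℝ) * ((r : ℝ) + 1)) := by rw [h2]
      _ = ((r : ℝ) + 1) ^ (r + 1) * (((m + 1).choose (r + 1) : ℕ) : ℝ) := by rw [pow_succ]; ring

private lemma LSC_image (k p : ℕ) (E : Finset ℕ) (hE : ∀ n ∈ E, ¬ Hit n k) (hp : p ∈ PK k) :
    p.Prime ∧ p ≤ k ∧ 3 * #(E.image (fun n => n % p)) ≤ 2 * p := by
  unfold PK at hp
  rw [mem_filter, mem_Icc] at hp
  obtain ⟨⟨hp1, hpk⟩, hpp, h1, h2⟩ := hp
  refine ⟨hpp, hpk, ?_⟩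
  have hsub : E.image (fun n => n % p) ⊆ range (2 * p - k) := by
    intro r hr
    obtain ⟨n, hn, rfl⟩ := mem_image.1 hr
    rw [mem_range]
    have h3 : ¬ (p ≤ n % p + k % p) := fun h => hE n hn ⟨p, hpp, hpk, h⟩
    have h4 : k % p = k - p := by
      rw [Nat.mod_eq_sub_mod hpk, Nat.mod_eq_of_lt (by omega)]
    omega
  have h5 := card_le_card hsub
  rw [card_range] at h5
  omega

theorem LSC (hMSL : MSL_stmt) (hPRC : PRC_stmt) : LSC_stmt := by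
  intro c ε hc1 hε
  obtain ⟨k₀, hk₀⟩ := hPRC
  have hc0 : 0 < c := by linarith
  have hcm : 0 < c - 1 := by linarith
  obtain ⟨M, hM⟩ : ∃ M : ℝ, M = k₀ + 2 + Real.exp (Real.log 5 / ε) + 2 * Real.log 10 / ε +
    (5 / 2 : ℝ) ^ (c - 1)⁻¹ := ⟨_, rfl⟩
  have hlog5 : 0 < Real.log 5 := Real.log_pos (by norm_num)
  have hlog10 : 0 < Real.log 10 := Real.log_pos (by norm_num)
  refine ⟨⌈Real.exp M⌉₊, ?_⟩
  intro X hX k hk hk2 E hE
  have hXM : Real.exp M ≤ X := (Nat.le_ceil _).trans (by exact_mod_cast hX)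
  have hX0 : (0 : ℝ) < X := (Real.exp_pos M).trans_le hXM
  rw [Real.rpow_def_of_pos hX0]
  obtain ⟨L, hL⟩ : ∃ L, L = Real.log X := ⟨_, rfl⟩
  rw [← hL] at hk ⊢
  have hXL : (X : ℝ) = Real.exp L := by rw [hL, Real.exp_log hX0]
  have hLM : M ≤ L := by
    rw [hL]
    exact (Real.le_log_iff_exp_le hX0).2 hXM
  have b1 : (0 : ℝ) ≤ k₀ := Nat.cast_nonneg _
  have b2 : 0 < Real.exp (Real.log 5 / ε) := Real.exp_pos _
  have b3 : 0 < 2 * Real.log 10 / ε := by positivity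
  have b4 : 0 < (5 / 2 : ℝ) ^ (c - 1)⁻¹ := Real.rpow_pos_of_pos (by norm_num) _
  have hL2 : 2 ≤ L := by linarith
  have hL0 : 0 < L := by linarith
  have a1 : (k₀ : ℝ) ≤ L := by linarith
  have a2 : Real.exp (Real.log 5 / ε) ≤ L := by linarith
  have a3 : 2 * Real.log 10 / ε ≤ L := by linarith
  have a3' : 2 * Real.log 10 ≤ L * ε := (div_le_iff₀ hε).1 a3
  have a4 : (5 / 2 : ℝ) ^ (c - 1)⁻¹ ≤ L := by linarith
  have hLc : 5 / 2 * L ≤ L ^ c := by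
    have h1 : ((5 / 2 : ℝ) ^ (c - 1)⁻¹) ^ (c - 1) ≤ L ^ (c - 1) := Real.rpow_le_rpow b4.le a4 hcm.le
    rw [← Real.rpow_mul (by norm_num), inv_mul_cancel₀ hcm.ne', Real.rpow_one] at h1
    have h2 : L ^ c = L ^ (c - 1) * L := by
      rw [← Real.rpow_add_one hL0.ne', sub_add_cancel]
    rw [h2]
    exact mul_le_mul_of_nonneg_right h1 hL0.le
  have hkL : 5 / 2 * L ≤ k := hLc.trans hk
  have hkk₀ : k₀ ≤ k := by
    have : (k₀ : ℝ) ≤ k := by linarith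
    exact_mod_cast this
  have hk0 : (0 : ℝ) < k := by linarith
  have hP := hk₀ k hkk₀
  obtain ⟨κ, hκ⟩ : ∃ κ, κ = Real.log k := ⟨_, rfl⟩
  rw [← hκ] at hP
  have hkκ : (k : ℝ) = Real.exp κ := by rw [hκ, Real.exp_log hk0]
  have hκ5 : Real.log 5 / ε ≤ κ := by
    rw [hκ]
    exact (Real.le_log_iff_exp_le hk0).2 (by linarith)
  have hκpos : 0 < κ := lt_of_lt_of_le (div_pos hlog5 hε) hκ5
  have hκ5' : Real.log 5 ≤ κ * ε := (div_le_iff₀ hε).1 hκ5
  have hκL : 2 * κ ≤ L := by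
    apply Real.exp_le_exp.1
    rw [← hXL, show 2 * κ = κ + κ by ring, Real.exp_add, ← hkκ]
    have : ((k ^ 2 : ℕ) : ℝ) ≤ X := by exact_mod_cast hk2
    push_cast at this
    nlinarith
  obtain ⟨u, hu⟩ : ∃ u : ℕ, u = ⌊L / (2 * κ)⌋₊ := ⟨_, rfl⟩
  have h2κ : 0 < 2 * κ := by linarith
  have hu1 : 1 ≤ u := by
    rw [hu]
    apply Nat.le_floor
    rw [Nat.cast_one, le_div_iff₀ h2κ]
    linarith
  have hu2 : (u : ℝ) * (2 * κ) ≤ L := by
    rw [hu]
    exact (le_div_iff₀ h2κ).1 (Nat.floor_le (div_nonneg (by linarith) h2κ.le))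
  have hu3 : L < ((u : ℝ) + 1) * (2 * κ) := by
    rw [hu]
    exact (div_lt_iff₀ h2κ).1 (Nat.lt_floor_add_one _)
  have hu0 : (0 : ℝ) < u := by exact_mod_cast hu1
  obtain ⟨P, hPdef⟩ : ∃ P : ℕ, P = #(PK k) := ⟨_, rfl⟩
  rw [← hPdef] at hP
  have huP : u ≤ P := by
    by_contra h
    have h1 : (P : ℝ) < u := by exact_mod_cast not_le.1 h
    have h2 : κ * (P : ℝ) < κ * u := mul_lt_mul_of_pos_left h1 hκpos
    nlinarith
  -- the large sieve
  have hR : (((k ^ u : ℕ)) : ℝ) ^ 2 ≤ X := by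
    push_cast
    rw [hkκ, hXL, ← Real.exp_nat_mul, ← Real.exp_nat_mul]
    apply Real.exp_le_exp.2
    push_cast
    linarith
  have hk1 : 1 ≤ k := by
    have : (0 : ℝ) < k := hk0
    exact_mod_cast this
  have hm := hMSL X (k ^ u) k u E (PK k) (Nat.one_le_pow _ _ hk1)
    (fun n hn => mem_Ioc.2 ⟨(hE n hn).1, (hE n hn).2.1⟩)
    (fun p hp => LSC_image k p E (fun n hn => (hE n hn).2.2) hp) le_rfl
  rw [← hPdef] at hm
  have hc := LSC_choose u P huP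
  obtain ⟨β, hβ⟩ : ∃ β : ℝ, β = 1 - c⁻¹ := ⟨_, rfl⟩
  have hci : 0 < c⁻¹ := inv_pos.2 hc0
  have hci1 : c⁻¹ < 1 := inv_lt_one_of_one_lt₀ hc1
  have hβ0 : 0 < β := by linarith
  have hβ1 : β ≤ 1 := by linarith
  obtain ⟨W, hW⟩ : ∃ W, W = Real.exp (β * κ) := ⟨_, rfl⟩
  have hW0 : 0 < W := by rw [hW]; exact Real.exp_pos _
  have hLW : L ≤ Real.exp (κ * c⁻¹) := by
    have h1 : (L ^ c) ^ c⁻¹ ≤ (Real.exp κ) ^ c⁻¹ := by
      apply Real.rpow_le_rpow (Real.rpow_nonneg hL0.le c) _ hci.le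
      rw [← hkκ]
      exact hk
    rw [← Real.rpow_mul hL0.le, mul_inv_cancel₀ hc0.ne', Real.rpow_one, ← Real.exp_mul] at h1
    exact h1
  have h5 : 2 * (u : ℝ) * W ≤ 5 * P := by
    have h1 : κ * (2 * (u : ℝ) * W) ≤ κ * (5 * P) := by
      calc κ * (2 * (u : ℝ) * W) = ((u : ℝ) * (2 * κ)) * W := by ring
        _ ≤ L * W := mul_le_mul_of_nonneg_right hu2 hW0.le
        _ ≤ Real.exp (κ * c⁻¹) * W := mul_le_mul_of_nonneg_right hLW hW0.le
        _ = k := by rw [hW, ← Real.exp_add, hkκ, hβ]; congr 1; ring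
        _ ≤ 5 * κ * P := hP
        _ = κ * (5 * P) := by ring
    exact le_of_mul_le_mul_left h1 hκpos
  have h6 : (2 * (u : ℝ) * W) ^ u ≤ (5 * (P : ℝ)) ^ u := pow_le_pow_left₀ (by positivity) h5 u
  have hE0 : (0 : ℝ) ≤ #E := Nat.cast_nonneg _
  have h7 : (2 * (u : ℝ)) ^ u * (W ^ u * #E) ≤ (2 * (u : ℝ)) ^ u * (5 ^ u * (10 * X)) := by
    calc (2 * (u : ℝ)) ^ u * (W ^ u * #E) = (2 * (u : ℝ) * W) ^ u * #E := by rw [mul_pow _ W]; ring
      _ ≤ (5 * (P : ℝ)) ^ u * #E := mul_le_mul_of_nonneg_right h6 hE0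
      _ = 5 ^ u * ((P : ℝ) ^ u * #E) := by rw [mul_pow]; ring
      _ ≤ 5 ^ u * (((u : ℝ) ^ u * (P.choose u : ℝ)) * #E) := by
          exact mul_le_mul_of_nonneg_left (mul_le_mul_of_nonneg_right hc hE0) (by positivity)
      _ = 5 ^ u * (u : ℝ) ^ u * ((P.choose u : ℝ) * #E) := by ring
      _ ≤ 5 ^ u * (u : ℝ) ^ u * (2 ^ u * (5 * ((X : ℝ) + ((k ^ u : ℕ) : ℝ) ^ 2))) :=
          mul_le_mul_of_nonneg_left hm (by positivity)
      _ ≤ 5 ^ u * (u : ℝ) ^ u * (2 ^ u * (5 * ((X : ℝ) + X))) := by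
          have : (X : ℝ) + ((k ^ u : ℕ) : ℝ) ^ 2 ≤ X + X := by linarith
          exact mul_le_mul_of_nonneg_left (mul_le_mul_of_nonneg_left (mul_le_mul_of_nonneg_left this (by norm_num))
            (by positivity)) (by positivity)
      _ = (2 * (u : ℝ)) ^ u * (5 ^ u * (10 * X)) := by rw [mul_pow]; ring
  have h8 : W ^ u * #E ≤ 5 ^ u * (10 * X) := le_of_mul_le_mul_left h7 (by positivity)
  -- the end
  have e1 : W ^ u = Real.exp (u * (β * κ)) := by rw [hW, ← Real.exp_nat_mul]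
  have e2 : (5 : ℝ) ^ u = Real.exp (u * Real.log 5) := by
    rw [Real.exp_nat_mul, Real.exp_log (by norm_num)]
  have e3 : (10 : ℝ) = Real.exp (Real.log 10) := (Real.exp_log (by norm_num)).symm
  have h9 : Real.exp (u * (β * κ)) * #E ≤ Real.exp (u * Real.log 5 + (Real.log 10 + L)) := by
    rw [Real.exp_add, Real.exp_add, ← e2, ← e3, ← hXL, ← e1]
    exact h8
  have h10 : (#E : ℝ) ≤ Real.exp (u * Real.log 5 + (Real.log 10 + L) - u * (β * κ)) := by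
    rw [Real.exp_sub, le_div_iff₀ (Real.exp_pos _), mul_comm]
    exact h9
  refine h10.trans ?_
  rw [hkκ, ← Real.exp_add]
  apply Real.exp_le_exp.2
  have f1 : (u : ℝ) * Real.log 5 ≤ L * ε / 2 := by
    calc (u : ℝ) * Real.log 5 ≤ u * (κ * ε) := mul_le_mul_of_nonneg_left hκ5' hu0.le
      _ = (u * (2 * κ)) * ε / 2 := by ring
      _ ≤ L * ε / 2 := by
          have := mul_le_mul_of_nonneg_right hu2 hε.le
          linarith
  have f2 : β * (L / 2 - κ) ≤ u * (β * κ) := by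
    have h1 : L / 2 - κ ≤ u * κ := by linarith
    calc β * (L / 2 - κ) ≤ β * (u * κ) := mul_le_mul_of_nonneg_left h1 hβ0.le
      _ = u * (β * κ) := by ring
  have f3 : β * κ ≤ κ := by
    have := mul_le_mul_of_nonneg_right hβ1 hκpos.le
    linarith
  have f4 : L * (1 / 2 + 1 / (2 * c) + ε) = L - β * (L / 2) + L * ε := by
    rw [hβ]
    field_simp
    ring
  rw [f4]
  have f5 : β * (L / 2 - κ) = β * (L / 2) - β * κ := by ring
  linarith

end Pool.Agent.DFO
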